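import Pool.Agent.TH818.AP.Mv

/-!
# Grothendieck's period conjecture for almost all products of `n` Legendre elliptic curves over `ℚ`,
# up to any given degree and height, with a measure

For `t ∈ ℚ`, `0 < t < 1`, the field of periods of the elliptic curve `E_t : y² = x(x-1)(x-t)` is generated, up to
algebraic numbers, by `K(t)`, `E(t)`, `K(1-t)` and `π` (Legendre's relation). For `t = (t_1, …, t_n)` the abelian variety
`E_{t_1} × ⋯ × E_{t_n}` has periods generated by the `3n + 1` numbers `π`, `K(t_j)`, `E(t_j)`, `K(1-t_j)`, and for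
general `t` its Mumford–Tate group has dimension `3n + 1`.
-/

set_option autoImplicit false

namespace Pool.Agent.Results.MP_57341d_ag.AlmostAllLegendreProducts

/-- Complete elliptic integral of the first kind, `K(t) = ∫_0^{π/2} dθ / √(1 - t sin² θ)`. -/
noncomputable def K (t : ℝ) : ℝ := ∫ θ in (0 : ℝ)..(Real.pi / 2), 1 / √(1 - t * Real.sin θ ^ 2)

/-- Complete elliptic integral of the second kind, `E(t) = ∫_0^{π/2} √(1 - t sin² θ) dθ`. -/
noncomputable def E (t : ℝ) : ℝ := ∫ θ in (0 : ℝ)..(Real.pi / 2), √(1 - t * Real.sin θ ^ 2)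

/-- The `3n + 1` numbers `π`, `K(t_j)`, `E(t_j)`, `K(1 - t_j)`. -/
noncomputable def periods {n : ℕ} (t : Fin n → ℚ) (x : Option (Fin n × Fin 3)) : ℝ :=
  match x with
  | none => Real.pi
  | some (j, i) => ![K (t j), E (t j), K (1 - t j)] i

/-- The `n`-tuples `t` of rational numbers in `[a, b]` with denominators at most `T` for which some nonzero polynomial
in `3n + 1` variables with integer coefficients of absolute value at most `T ^ A`, of degree at most `d` in each variable,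
takes at the periods a value of absolute value at most `T ^ (-B)`. -/
def Exceptional (n d : ℕ) (a b A B T : ℝ) : Set (Fin n → ℚ) :=
  {t | (∀ j, a ≤ t j ∧ t j ≤ b ∧ ((t j).den : ℝ) ≤ T) ∧
    ∃ P : MvPolynomial (Option (Fin n × Fin 3)) ℤ, P ≠ 0 ∧ (∀ x, P.degreeOf x ≤ d) ∧
      (∀ s, |((P.coeff s : ℤ) : ℝ)| ≤ T ^ A) ∧ |MvPolynomial.aeval (periods t) P| ≤ T ^ (-B)}

/-- Let `[a, b] ⊂ (0, 1)`, let `n ≥ 1`, `d`, `A ≥ 0` be given, and let `β > 2 - 2 / ((d + 1)^(3n + 1) + 1)`. There are `B`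
and `C` such that for all `T ≥ 1` the number of exceptional `n`-tuples is at most `C T^(2(n - 1) + β)`. -/
theorem result (n d : ℕ) (hn : 1 ≤ n) (a b : ℝ) (ha : 0 < a) (hab : a < b) (hb : b < 1) (A β : ℝ) (hA : 0 ≤ A)
    (hβ : 2 - 2 / (((d : ℝ) + 1) ^ (3 * n + 1) + 1) < β) :
    ∃ B C : ℝ, ∀ T : ℝ, 1 ≤ T → (Exceptional n d a b A B T).Finite ∧
      ((Exceptional n d a b A B T).ncard : ℝ) ≤ C * T ^ (2 * ((n : ℝ) - 1) + β) := by
  obtain ⟨B, C, h⟩ := TH818.AP.multi_final n d hn a b ha hab hb A β hA hβ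
  refine ⟨B, C, fun T hT => ?_⟩
  have hsub : Exceptional n d a b A B T ⊆ TH818.AP.ExcN n d a b A B T := by
    rintro t ⟨ht, P, hP0, hPd, hPc, hPs⟩
    refine ⟨fun j => ⟨⟨(ht j).1, (ht j).2.1⟩, (ht j).2.2⟩, fun e => P.coeff (TH818.AP.sOf e),
      TH818.AP.coeff_ne P hP0 hPd, fun e => hPc _, ?_⟩
    rw [TH818.AP.aeval_eq (periods t) P hPd] at hPs
    refine le_trans (le_of_eq ?_) hPs
    congr 1
    refine Finset.sum_congr rfl fun e _ => ?_
    congr 1
    simp only [TH818.AP.xi, TH818.AP.g1]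
    congr 1
    refine Finset.prod_congr rfl fun j _ => ?_
    refine Finset.prod_congr rfl fun i _ => ?_
    congr 1
    fin_cases i
    · simp [TH818.AP.KC, periods, K, TH818.AR.KK]
    · simp [TH818.AP.KC, periods, E, TH818.AR.EE]
    · simp [TH818.AP.KC, periods, K, TH818.AR.KK]
  have hfin := TH818.AP.ExcN_fin n d a b A B T
  refine ⟨hfin.subset hsub, le_trans ?_ (h T hT)⟩
  exact_mod_cast Set.ncard_le_ncard hsub hfin

end Pool.Agent.Results.MP_57341d_ag.AlmostAllLegendreProducts
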