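import Pool.Agent.TH128.KZ.Fin

/-!
# The periods of any motive and of almost all K3 surfaces of a family

Let `Z` be **any** smooth projective variety over the field of algebraic numbers (or any motive),
with Betti numbers `b_k`. Let `X_i`, `i ∈ ι`, be a finite or infinite family of K3 surfaces (or
hyperkähler varieties) over the algebraic numbers. Let `T_i` be the transcendental part of
`H²(X_i)(1)`, of rank `n_i ≥ 3`, `n_i ≠ 4, 5`, with `n_i = 8` for at most one `i`. Suppose that the
Hodge structures `T_i` have no other endomorphisms than the rational numbers and that the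
Kuga-Satake varieties `A_i` have no common isogeny factors. By Zarhin the Mumford-Tate group of
`h¹(A_i)` is `GSpin(T_i)`; the one of the sum of the `h¹(A_i)` is `G_m · ∏ Spin(T_i)`.

The theorem: there is a finite set `E ⊆ ι` of exceptional indices with
`∑_{i ∈ E} n_i (n_i - 1) / 2 ≤ ∑ b_k ^ 2`
such that for all finite sets `J` of other indices the varieties `X_j`, `j ∈ J`, are independent of
`Z` in the sense of the period torsors: every algebraic group `H` over the algebraic numbers, with a
torsor over the algebraic numbers which contains the comparison isomorphism of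
`⨁_{j ∈ J} S_j ⊕ H(Z)` (`S_j` is the spin representation of `GSpin(T_j)`, so that `h¹(A_j)` is a sum
of copies of `S_j` or of its two halves), contains the group `∏_{j ∈ J} Spin(T_j) × 1`.

So let `M = h(Z) ⊕ ⨁_{j ∈ J} h¹(A_j)`. The dimension of the smallest torsor over the algebraic
numbers which contains the period point of `M` is at least the one for `Z` plus
`∑_{j ∈ J} dim Spin(T_j)`, as the conjecture of Grothendieck predicts if the weight of `Z` is
nontrivial, and the motivic torsor of `M` is the smallest torsor over the algebraic numbers which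
contains the period point if and only if this is so for `Z`.

The data.

* `Γ i 1, …, Γ i n_i` is an orthogonal basis of `T_i`, acting on `S_i`, in an algebraic basis of the
  Betti realization of `S_i`. Choose algebraic bases of the de Rham realizations of the `S_i` which
  correspond to the Betti bases under an algebraic point of the motivic torsor, and let `P i` be the
  matrix of the comparison isomorphism of `S_i` (rows: Betti side, columns: de Rham side).
* `deligne`: the point `(P i)` belongs to the motivic group `G_m · ∏ Spin(T_i)` (Deligne: Hodge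
  classes on abelian varieties are absolute Hodge classes; André: they are motivated).
* `wustholz`: all linear relations with algebraic coefficients between the entries of finitely many
  matrices `P i` hold for the product of the even Clifford algebras (Wüstholz: the linear relations
  between the periods of an abelian variety are given by its endomorphisms; it is applied to the
  products of the `A_i`).
* `Q` is the matrix of the comparison isomorphism of `Z`, `deg b` is the degree of a basis vector;
  so `∑ b_k ^ 2` is the number of the pairs with `deg a = deg b`. Nothing is assumed on the periods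
  of `Z`, and nothing on relations between the periods of `Z` and of the `X_i`. The proof works for
  an arbitrary invertible matrix with this block structure.

The idea of the proof. Call `i` exceptional if there is a Lie algebra of pairs in
`so(n_i) × ∏ gl(b_k)`, stable under all derivations of the complex numbers, which contains the
logarithmic derivatives of the two period matrices and in which the second component determines the
first one. By Goursat's lemma the theorem holds if no `j ∈ J` is exceptional. If all elements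
of a finite set `E` are exceptional, one intersects the Lie algebras. The intersection is mapped onto
`∏_{i ∈ E} so(n_i)`, by the theorem of Wüstholz and the classification of the Lie subalgebras which
generate the product of the even Clifford algebras (helper164), and its second component
determines the first one; so `∑_{i ∈ E} dim so(n_i) ≤ ∑ b_k ^ 2`.
-/

set_option autoImplicit false
set_option linter.unusedSectionVars false

namespace Pool.Agent.Results.MP_57341d_ag.AnyMotiveTimesAlmostAllK3

open Matrix

section defs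

variable {N : Type} [Fintype N] [DecidableEq N] {n : ℕ}

/-- Matrices with algebraic entries which satisfy the relations of Clifford,
`Γᵢ² = 1` and `Γᵢ Γⱼ = - Γⱼ Γᵢ`, and generate the algebra of all matrices. -/
structure IsSpinSystem (Γ : Fin n → Matrix N N ℂ) : Prop where
  algebraic : ∀ i a b, IsAlgebraic ℚ (Γ i a b)
  sq : ∀ i, Γ i * Γ i = 1
  anti : ∀ i j, i ≠ j → Γ i * Γ j = -(Γ j * Γ i)
  generate : Algebra.adjoin ℂ (Set.range Γ) = ⊤

/-- The space `T` of vectors. -/
def vectors (Γ : Fin n → Matrix N N ℂ) : Submodule ℂ (Matrix N N ℂ) :=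
  Submodule.span ℂ (Set.range Γ)

/-- The even Clifford algebra. -/
def evenClifford (Γ : Fin n → Matrix N N ℂ) : Subalgebra ℂ (Matrix N N ℂ) :=
  Algebra.adjoin ℂ {x | ∃ i j, x = Γ i * Γ j}

/-- The group `Spin(T)`, generated by the products of two vectors of square one. -/
def spin (Γ : Fin n → Matrix N N ℂ) : Subgroup (GL N ℂ) :=
  Subgroup.closure {g | ∃ t ∈ vectors Γ, ∃ s ∈ vectors Γ, t * t = 1 ∧ s * s = 1 ∧ g.val = t * s}

/-- A subgroup of `GL_R(ℂ)` defined by polynomials with algebraic coefficients. -/
def IsAlgebraicSubgroup {R : Type} [Fintype R] [DecidableEq R] (H : Subgroup (GL R ℂ)) : Prop :=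
  ∃ I : Set (MvPolynomial (R × R) ℂ), (∀ p ∈ I, ∀ m, IsAlgebraic ℚ (p.coeff m)) ∧
    ∀ g : GL R ℂ, g ∈ H ↔ ∀ p ∈ I, MvPolynomial.eval (fun b => (g : Matrix R R ℂ) b.1 b.2) p = 0

/-- The matrix `E` belongs to a torsor `H · A⁻¹` of `H` defined over the algebraic numbers. -/
def HasPoint {R : Type} [Fintype R] [DecidableEq R] (E : Matrix R R ℂ) (H : Subgroup (GL R ℂ)) :
    Prop :=
  ∃ A : Matrix R R ℂ, (∀ i j, IsAlgebraic ℚ (A i j)) ∧ ∃ g ∈ H, (g : Matrix R R ℂ) = E * A

end defs

/-- The comparison isomorphisms `P i` of the spin representations of the varieties `X_i`. -/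
structure IsKugaSatakeFamily {ι : Type} {n : ι → ℕ} {N : ι → Type} [∀ i, Fintype (N i)]
    [∀ i, DecidableEq (N i)] (Γ : ∀ i, Fin (n i) → Matrix (N i) (N i) ℂ)
    (P : ∀ i, GL (N i) ℂ) : Prop where
  spinSystem : ∀ i, IsSpinSystem (Γ i)
  three_le : ∀ i, 3 ≤ n i
  ne_four : ∀ i, n i ≠ 4
  ne_five : ∀ i, n i ≠ 5
  eight : ∀ i j, n i = 8 → n j = 8 → i = j
  /-- Deligne, André: the point `(P i)` belongs to the group `G_m · ∏ Spin(T_i)`. -/
  deligne : ∃ c : ℂ, c ≠ 0 ∧ ∀ i, ∃ u ∈ spin (Γ i), (P i).val = c • u.val
  /-- Wüstholz: the linear relations between the entries of finitely many `P i`. -/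
  wustholz : ∀ J : Finset ι, ∀ C : ∀ i, Matrix (N i) (N i) ℂ,
    (∀ i a b, IsAlgebraic ℚ (C i a b)) → ∑ i ∈ J, ∑ a, ∑ b, C i a b * (P i).val a b = 0 →
    ∀ i ∈ J, ∀ x ∈ evenClifford (Γ i), ∑ a, ∑ b, C i a b * x a b = 0

section proof

open Pool.Agent.TH164.Spin Pool.Agent.TH119.MX

theorem cl_of {N : Type} [Fintype N] [DecidableEq N] {n : ℕ} {Γ : Fin n → Matrix N N ℂ}
    [Nonempty N] (h : IsSpinSystem Γ) : Cl Γ where
  rel i j := by
    by_cases hij : i = j
    · rw [if_pos hij, hij, h.sq, two_smul]
    · rw [if_neg hij, zero_smul, h.anti i j hij, neg_add_cancel]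
  gen := h.generate

theorem wu_of {ι : Type} {n : ι → ℕ} {N : ι → Type} [∀ i, Fintype (N i)]
    [∀ i, DecidableEq (N i)] {Γ : ∀ i, Fin (n i) → Matrix (N i) (N i) ℂ} {P : ∀ i, GL (N i) ℂ}
    (hP : IsKugaSatakeFamily Γ P) {c : ℂ} {u : ∀ i, GL (N i) ℂ}
    (huP : ∀ i, (P i).val = c • (u i).val) (T : Finset ι) :
    Pool.Agent.TH128.KZ.Wu (fun j : T => Γ j) (fun j : T => c • (u j).val) := by
  classical
  intro C hC h0 j x hx
  obtain ⟨C', hC'⟩ : ∃ C' : ∀ i, Matrix (N i) (N i) ℂ, ∀ i, C' i =
      if h : i ∈ T then C ⟨i, h⟩ else 0 := ⟨_, fun i => rfl⟩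
  have h1 : ∀ j : T, C' j = C j := by
    intro j
    rw [hC', dif_pos j.2]
  have h2 := hP.wustholz T C' (by
    intro i a b
    rw [hC']
    split_ifs with h
    · exact hC ⟨i, h⟩ a b
    · exact isAlgebraic_zero) (by
    rw [← h0, ← Finset.sum_coe_sort T]
    refine Finset.sum_congr rfl fun j _ => ?_
    rw [h1, huP]) j j.2 x hx
  rw [← h2, h1]

end proof

/-- **Theorem.** Let `Q` be the comparison isomorphism of any object, with blocks given by `deg`, and
let `P i` be the comparison isomorphisms of the spin representations of a family of K3 surfaces. There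
is a finite set `E` of exceptional indices, with `∑_{i ∈ E} n_i (n_i - 1) ≤ 2 ∑ b_k ^ 2`, such that
for all finite sets `J` of other indices, all algebraic groups `H` over the algebraic numbers, with
a torsor over the algebraic numbers which contains the comparison isomorphism of
`⨁_{j ∈ J} S_j ⊕ H(Z)`, contain the group `∏_{j ∈ J} Spin(T_j) × 1`. -/
theorem result {ι B D : Type} [DecidableEq ι] [Fintype B] [DecidableEq B] [DecidableEq D]
    {n : ι → ℕ} {N : ι → Type} [∀ i, Fintype (N i)] [∀ i, DecidableEq (N i)]
    [∀ i, Nonempty (N i)] {Γ : ∀ i, Fin (n i) → Matrix (N i) (N i) ℂ} {P : ∀ i, GL (N i) ℂ}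
    (hP : IsKugaSatakeFamily Γ P) (Q : GL B ℂ) (deg : B → D)
    (hQ : ∀ a b, deg a ≠ deg b → Q.val a b = 0) :
    ∃ E : Finset ι,
      ∑ i ∈ E, n i * (n i - 1) ≤ 2 * Fintype.card {p : B × B // deg p.1 = deg p.2} ∧
      ∀ J : Finset ι, Disjoint J E → ∀ H : Subgroup (GL ((Σ j : J, N j) ⊕ B) ℂ),
        IsAlgebraicSubgroup H →
        HasPoint (fromBlocks (blockDiagonal' fun j : J => (P j).val) 0 0 Q.val) H →
        ∀ g : ∀ j : J, GL (N j) ℂ, (∀ j : J, g j ∈ spin (Γ j)) →
          ∃ h ∈ H, h.val = fromBlocks (blockDiagonal' fun j : J => (g j).val) 0 0 1 := by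
  classical
  obtain ⟨c, hc, hu⟩ := hP.deligne
  choose u hus huP using hu
  have hcl := fun i => cl_of (hP.spinSystem i)
  have h8 : ∀ T : Finset ι, ∀ i j : T, i ≠ j → ¬(n i = 8 ∧ n j = 8) :=
    fun T i j hij h => hij (Subtype.ext (hP.eight i j h.1 h.2))
  -- the relations for a finite set
  have hW : ∀ T : Finset ι, Pool.Agent.TH128.KZ.Wu (fun j : T => Γ j)
      (fun j : T => c • (u j).val) := fun T => wu_of hP huP T
  -- the bound
  have hbound : ∀ T : Finset ι, (∀ i ∈ T, Pool.Agent.TH128.KZ.Exc (Γ i) (u i).val
      ((u i)⁻¹).val deg Q.val (Q⁻¹).val) →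
      ∑ i ∈ T, n i * (n i - 1) ≤ 2 * Fintype.card {p : B × B // deg p.1 = deg p.2} := by
    intro T hT
    rw [← Finset.sum_coe_sort T]
    exact Pool.Agent.TH128.KZ.card_fin (n := fun j : T => n j) (N := fun j : T => N j)
      (Γ := fun j : T => Γ j) (fun j => hcl j) (fun j => hP.three_le j)
      (fun j => hP.ne_four j) (fun j => hP.ne_five j) (h8 T)
      (fun j => (hP.spinSystem j).algebraic) hc (u := fun j : T => u j) (fun j => hus j) (hW T)
      (fun j => hT j j.2)
  obtain ⟨E, hE, -⟩ := Pool.Agent.TH128.GZ.exists_finset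
    (X := {i | Pool.Agent.TH128.KZ.Exc (Γ i) (u i).val ((u i)⁻¹).val deg Q.val (Q⁻¹).val})
    (N := 2 * Fintype.card {p : B × B // deg p.1 = deg p.2}) (by
    intro T hT
    refine le_trans ?_ (hbound T fun i hi => hT hi)
    rw [Finset.card_eq_sum_ones]
    refine Finset.sum_le_sum fun i _ => ?_
    have h3 := hP.three_le i
    have h4 : 1 ≤ n i - 1 := by omega
    calc 1 ≤ n i := by omega
      _ = n i * 1 := (mul_one _).symm
      _ ≤ n i * (n i - 1) := Nat.mul_le_mul_left _ h4)
  have hmem : ∀ i, i ∈ E ↔ Pool.Agent.TH128.KZ.Exc (Γ i) (u i).val ((u i)⁻¹).val deg Q.val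
      (Q⁻¹).val := by
    intro i
    rw [← Finset.mem_coe, hE]
    exact Iff.rfl
  refine ⟨E, hbound E fun i hi => (hmem i).1 hi, ?_⟩
  rintro J hJ H hH ⟨A, hA, g₁, hg₁, hPA⟩ g hg
  have e1 : (blockDiagonal' fun j : J => (P j).val) =
      c • Pool.Agent.TH164.Spin.bd fun j : J => (u j).val := by
    rw [← map_smul, Pool.Agent.TH164.Spin.bd_apply]
    congr 1
    funext j
    exact huP j
  rw [e1] at hPA
  exact Pool.Agent.TH128.KZ.main_fin (n := fun j : J => n j) (N := fun j : J => N j)
    (Γ := fun j : J => Γ j) (fun j => hcl j) (fun j => hP.three_le j)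
    (fun j => hP.ne_four j) (fun j => hP.ne_five j) (h8 J)
    (fun j => (hP.spinSystem j).algebraic) hc (u := fun j : J => u j) (fun j => hus j) (hW J)
    hQ (fun j hexc => Finset.disjoint_left.1 hJ j.2 ((hmem j).2 hexc)) hH hA hg₁ hPA hg

end Pool.Agent.Results.MP_57341d_ag.AnyMotiveTimesAlmostAllK3
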