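import Pool.Agent.TH30.PD.Dim2

/-!
# Motives with Mumford-Tate group of dimension at most two

A motive enters through its realisations `Obj`: an index type `J` for the bases, the period matrix
`c` and the operator `P` on `H_B ⊗ ℂ` which is `p` on `H^{p,q}`.

`𝓜` is a class of motives over fields of algebraic numbers, closed under sums and duals, on which
every Hodge class in a tensor power has algebraic de Rham coordinates (`IsClass`; for motives of
abelian type this is the theorem of Deligne and André), and which contains elliptic curves with
complex multiplication by every imaginary quadratic field (`HasCMCurves`, with Chudnovsky's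
theorem). `mt M.P` is the Lie algebra of the Mumford-Tate group of `M`: the rational endomorphisms
which kill all Hodge classes of type `(0,0)` in the mixed tensor spaces.

The theorem: if the Mumford-Tate group of `M` has dimension at most two, and `M` is not of weight
zero when the dimension is two, then the transcendence degree of `K(c_M)` is this dimension.
-/

set_option autoImplicit false

open Matrix

namespace Pool.Agent.Results.MP_57341d_ag.DimensionTwo

open Pool.Agent.TH30.PD

theorem result {𝓜 : Obj → Prop} (h𝓜 : IsClass 𝓜) (hCM : HasCMCurves 𝓜) (M : Obj) (hM : 𝓜 M)
    (K : IntermediateField ℚ ℂ) [Algebra.IsAlgebraic ℚ K]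
    (hd : Module.finrank ℚ (mt M.P) ≤ 2)
    (hw : Module.finrank ℚ (mt M.P) = 2 → M.P + cj M.P ≠ 0) :
    Algebra.trdeg ℚ (periodField K M.c) = Module.finrank ℚ (mt M.P) :=
  trdeg_eq h𝓜 hCM hM hd hw K

end Pool.Agent.Results.MP_57341d_ag.DimensionTwo
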