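import Pool.Agent.TH164.Spin.Rm7
import Pool.Agent.H297R2.InBakerThm

/-!
# Kuga-Satake motives with real multiplication: the smallest torsor with a period point

Let `X` be a K3 surface (or a hyperkähler variety) over the field of algebraic numbers, and let `T`
be the transcendental part of `H²(X)(1)`. Suppose that the endomorphisms of the Hodge structure `T`
are a totally real field `E` of degree `r ≥ 2`, and put `m = dim_E T`, so that `dim T = r m = n`. By
Zarhin the Mumford-Tate group of `T` is the group `SO_E(T)`, and `T` is over the algebraic numbers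
the orthogonal sum of `r` spaces `T_c`, one for each embedding of `E`, of dimension `m ≥ 3`. Let `A`
be the Kuga-Satake variety of `T`. Its Mumford-Tate group has dimension `1 + r m (m - 1) / 2`: it is
the group of the elements of `GSpin(T)` over `SO_E(T)`.

Let `S` be the spin representation of the Clifford algebra of `T`. In an algebraic basis of
the Betti realization of `S`, the space `T` is spanned by matrices `Γ₁, …, Γₙ` with algebraic
entries that satisfy the Clifford relations and generate the algebra of all matrices. The colour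
`κ i` of `i` is the index `c` with `Γᵢ ∈ T_c`. The algebra generated by the Mumford-Tate group is
generated by the products `Γᵢ Γⱼ` of generators of the same colour, and the group consists of all its
units `g` with `g T_c g⁻¹ = T_c` for all `c`. Choose an algebraic basis of the de Rham realization of
`S` which corresponds to the Betti basis under an algebraic point of the motivic torsor, and
let `P` be the period matrix of `S`. (The entries of `P` generate over the algebraic numbers the
field of periods of `A`, since `h¹(A)` is, with algebraic coefficients, a sum of summands of `S`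
in which each of them occurs.)

* `hDeligne`: the matrix `P` belongs to this group (Deligne: Hodge classes on abelian varieties are
  absolute Hodge classes; André: they are motivated), and the relation of Legendre gives the
  determinant.
* `hWustholz`: all linear relations with algebraic coefficients between the entries of `P` hold for
  the algebra generated by the group (Wüstholz: the linear relations between the periods of
  an abelian variety are given by its endomorphisms).

The theorem: the Mumford-Tate group is contained in each algebraic subgroup over the algebraic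
numbers that has a torsor which contains the period matrix. So the smallest torsor defined over the
algebraic numbers which contains the period matrix has dimension `dim MT(A)`, as Grothendieck's
conjecture predicts for the smallest subvariety.

The reason is algebraic: a Lie subalgebra of the sum of `r` copies of `so(m)`, where `m ≥ 3` and
`m ≠ 5`, which generates the same associative algebra in the spin representation of `so(r m)` as the
whole sum, is the whole sum.
-/

set_option autoImplicit false
set_option linter.unusedSectionVars false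

namespace Pool.Agent.Results.MP_57341d_ag.RealMultiplication

open Matrix

section defs

variable {N : Type} [Fintype N] [DecidableEq N] {n r : ℕ}

/-- Matrices with algebraic entries which satisfy the relations of Clifford,
`Γᵢ² = 1` and `Γᵢ Γⱼ = - Γⱼ Γᵢ`, and generate the algebra of all matrices. -/
structure IsSpinSystem (Γ : Fin n → Matrix N N ℂ) : Prop where
  algebraic : ∀ i a b, IsAlgebraic ℚ (Γ i a b)
  sq : ∀ i, Γ i * Γ i = 1
  anti : ∀ i j, i ≠ j → Γ i * Γ j = -(Γ j * Γ i)
  generate : Algebra.adjoin ℂ (Set.range Γ) = ⊤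

/-- The space `T_c` of vectors of colour `c`. -/
def vectors (Γ : Fin n → Matrix N N ℂ) (κ : Fin n → Fin r) (c : Fin r) :
    Submodule ℂ (Matrix N N ℂ) :=
  Submodule.span ℂ {x | ∃ i, κ i = c ∧ x = Γ i}

/-- The algebra generated by the products of two generators of the same colour. -/
def evenClifford (Γ : Fin n → Matrix N N ℂ) (κ : Fin n → Fin r) :
    Subalgebra ℂ (Matrix N N ℂ) :=
  Algebra.adjoin ℂ {x | ∃ i j, κ i = κ j ∧ x = Γ i * Γ j}

/-- The conditions `g, g⁻¹ ∈ C⁺` and `g T_c g⁻¹ = T_c` for all `c`. -/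
def InGSpin (Γ : Fin n → Matrix N N ℂ) (κ : Fin n → Fin r) (g : GL N ℂ) : Prop :=
  g.val ∈ evenClifford Γ κ ∧ (g⁻¹).val ∈ evenClifford Γ κ ∧
    ∀ c, ∀ t : Matrix N N ℂ, g.val * t * (g⁻¹).val ∈ vectors Γ κ c ↔ t ∈ vectors Γ κ c

theorem val_inv (x : GL N ℂ) : x.val * (x⁻¹).val = 1 := by
  rw [← Units.val_mul, mul_inv_cancel, Units.val_one]

theorem inv_val (x : GL N ℂ) : (x⁻¹).val * x.val = 1 := by
  rw [← Units.val_mul, inv_mul_cancel, Units.val_one]

theorem inGSpin_mul {Γ : Fin n → Matrix N N ℂ} {κ : Fin n → Fin r} {x y : GL N ℂ}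
    (hx : InGSpin Γ κ x) (hy : InGSpin Γ κ y) : InGSpin Γ κ (x * y) := by
  refine ⟨?_, ?_, fun c t => ?_⟩
  · rw [Units.val_mul]
    exact Subalgebra.mul_mem _ hx.1 hy.1
  · rw [_root_.mul_inv_rev, Units.val_mul]
    exact Subalgebra.mul_mem _ hy.2.1 hx.2.1
  · have h1 := hx.2.2 c (y.val * t * (y⁻¹).val)
    rw [hy.2.2 c t] at h1
    have h2 : x.val * (y.val * t * (y⁻¹).val) * (x⁻¹).val =
        (x * y).val * t * ((x * y)⁻¹).val := by
      rw [_root_.mul_inv_rev, Units.val_mul, Units.val_mul]
      simp only [Matrix.mul_assoc]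
    rwa [h2] at h1

theorem inGSpin_one (Γ : Fin n → Matrix N N ℂ) (κ : Fin n → Fin r) : InGSpin Γ κ 1 := by
  refine ⟨?_, ?_, fun c t => ?_⟩
  · rw [Units.val_one]
    exact Subalgebra.one_mem _
  · rw [inv_one, Units.val_one]
    exact Subalgebra.one_mem _
  · rw [inv_one, Units.val_one, Matrix.one_mul, Matrix.mul_one]

theorem inGSpin_inv {Γ : Fin n → Matrix N N ℂ} {κ : Fin n → Fin r} {x : GL N ℂ}
    (hx : InGSpin Γ κ x) : InGSpin Γ κ x⁻¹ := by
  refine ⟨hx.2.1, ?_, fun c t => ?_⟩
  · rw [inv_inv]
    exact hx.1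
  · rw [← hx.2.2 c ((x⁻¹).val * t * (x⁻¹⁻¹).val), inv_inv]
    have h1 : x.val * ((x⁻¹).val * t * x.val) * (x⁻¹).val = t := by
      calc x.val * ((x⁻¹).val * t * x.val) * (x⁻¹).val =
          (x.val * (x⁻¹).val) * t * (x.val * (x⁻¹).val) := by simp only [Matrix.mul_assoc]
        _ = t := by rw [val_inv, Matrix.one_mul, Matrix.mul_one]
    rw [h1]

/-- The Mumford-Tate group: the group of all `g` with `g, g⁻¹ ∈ C⁺` and `g T_c g⁻¹ = T_c`. -/
def gSpin (Γ : Fin n → Matrix N N ℂ) (κ : Fin n → Fin r) : Subgroup (GL N ℂ) where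
  carrier := {g | InGSpin Γ κ g}
  mul_mem' := inGSpin_mul
  one_mem' := inGSpin_one Γ κ
  inv_mem' := inGSpin_inv

/-- All linear relations with algebraic coefficients between the entries of `P` hold for the
algebra `evenClifford Γ κ`. -/
def OnlyCliffordRelations (Γ : Fin n → Matrix N N ℂ) (κ : Fin n → Fin r) (P : Matrix N N ℂ) :
    Prop :=
  ∀ B : Matrix N N ℂ, (∀ i j, IsAlgebraic ℚ (B i j)) → ∑ i, ∑ j, B i j * P i j = 0 →
    ∀ x ∈ evenClifford Γ κ, ∑ i, ∑ j, B i j * x i j = 0

/-- A subgroup of `GL_N(ℂ)` defined by polynomials with algebraic coefficients. -/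
def IsAlgebraicSubgroup (H : Subgroup (GL N ℂ)) : Prop :=
  ∃ I : Set (MvPolynomial (N × N) ℂ), (∀ p ∈ I, ∀ m, IsAlgebraic ℚ (p.coeff m)) ∧
    ∀ g : GL N ℂ, g ∈ H ↔ ∀ p ∈ I, MvPolynomial.eval (fun b => (g : Matrix N N ℂ) b.1 b.2) p = 0

/-- The matrix `P` belongs to a torsor `H · A⁻¹` of `H` defined over the algebraic numbers. -/
def HasPoint (P : Matrix N N ℂ) (H : Subgroup (GL N ℂ)) : Prop :=
  ∃ A : Matrix N N ℂ, (∀ i j, IsAlgebraic ℚ (A i j)) ∧ ∃ g ∈ H, (g : Matrix N N ℂ) = P * A

end defs

section proof

open Pool.Agent.TH164.Spin Pool.Agent.TH119.MX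

variable {N : Type} [Fintype N] [DecidableEq N] {n r : ℕ}

theorem two_pi_I_transcendental : ¬ IsAlgebraic ℚ (2 * Real.pi * Complex.I : ℂ) := by
  intro h
  have h1 := Pool.Agent.H297R2.baker_inhom (ι := Unit) (fun _ => 2 * Real.pi * Complex.I)
    (fun _ => by
      rw [Complex.exp_two_pi_mul_I]
      exact isAlgebraic_one)
    (LinearIndependent.of_subsingleton (R := ℚ) () Complex.two_pi_I_ne_zero)
    (-(2 * Real.pi * Complex.I)) h.neg (fun _ => 1) (fun _ => isAlgebraic_one) (by simp)
  exact one_ne_zero (h1.2 ())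

theorem cl_of {Γ : Fin n → Matrix N N ℂ} [Nonempty N] (h : IsSpinSystem Γ) : Cl Γ where
  rel i j := by
    by_cases hij : i = j
    · rw [if_pos hij, hij, h.sq, two_smul]
    · rw [if_neg hij, zero_smul, h.anti i j hij, neg_add_cancel]
  gen := h.generate

theorem vectors_eq [Nonempty N] (Γ : Fin n → Matrix N N ℂ) (κ : Fin n → Fin r) (c : Fin r) :
    vectors Γ κ c = Tk Γ κ c := by
  refine le_antisymm (Submodule.span_le.2 ?_) (Submodule.span_le.2 ?_)
  · rintro x ⟨i, hi, rfl⟩
    exact gam_Tk' hi
  · rintro x ⟨i, rfl⟩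
    by_cases hi : i ∈ cs κ c
    · rw [col_mem hi]
      exact Submodule.subset_span ⟨i, mem_cs.1 hi, rfl⟩
    · rw [col_not hi]
      exact Submodule.zero_mem _

theorem inK_of [Nonempty N] {Γ : Fin n → Matrix N N ℂ} {κ : Fin n → Fin r} {g : GL N ℂ}
    (hg : g ∈ gSpin Γ κ) : InK Γ κ g.val (g⁻¹).val := by
  refine ⟨val_inv g, inv_val g, fun c => ⟨val_inv g, inv_val g, fun t ht => ?_, fun t ht => ?_⟩⟩
  · have h1 := hg.2.2 c t
    rw [vectors_eq] at h1
    exact h1.2 ht
  · have h1 := (inGSpin_inv hg).2.2 c t
    rw [vectors_eq, inv_inv] at h1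
    exact h1.2 ht

end proof

/-- **Theorem.** Let `Γ₁, …, Γₙ` be matrices with algebraic entries which satisfy the
Clifford relations and generate the algebra of all matrices of their size (the spin
representation). Let them be coloured with `r ≥ 2` colours such that each colour `c` occurs
`m_c ≥ 3` times, `m_c ≠ 5`. Let `P` be a point of the group `gSpin Γ κ`, with the determinant of
the relation of Legendre, such that all linear relations with algebraic coefficients between the
entries of `P` hold for the algebra generated by the products of two generators of the same colour.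
Then `gSpin Γ κ` is an algebraic group over the algebraic numbers, and it is contained in every
algebraic subgroup `H` of `GL_N`, defined over the algebraic numbers, which has a torsor over the
algebraic numbers which contains `P`. -/
theorem result {N : Type} [Fintype N] [DecidableEq N] {n r : ℕ} (_hr : 2 ≤ r)
    (κ : Fin n → Fin r) (h3 : ∀ c, 3 ≤ (Finset.univ.filter fun i => κ i = c).card)
    (h5 : ∀ c, (Finset.univ.filter fun i => κ i = c).card ≠ 5)
    (Γ : Fin n → Matrix N N ℂ) (hΓ : IsSpinSystem Γ) (P : GL N ℂ)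
    (hDeligne : P ∈ gSpin Γ κ)
    (hLegendre : P.val.det ^ 2 = (2 * Real.pi * Complex.I) ^ Fintype.card N)
    (hWustholz : OnlyCliffordRelations Γ κ P.val) :
    IsAlgebraicSubgroup (gSpin Γ κ) ∧
      ∀ H : Subgroup (GL N ℂ), IsAlgebraicSubgroup H → HasPoint P.val H → gSpin Γ κ ≤ H := by
  rcases isEmpty_or_nonempty N with hN | hN
  · have h1 : ∀ g : GL N ℂ, g = 1 := fun g => Units.ext (Matrix.ext fun i => isEmptyElim i)
    refine ⟨⟨∅, fun p hp => absurd hp (Set.notMem_empty p), fun g => ?_⟩, fun H _ _ g _ => ?_⟩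
    · rw [h1 g]
      exact ⟨fun _ p hp => absurd hp (Set.notMem_empty p), fun _ => one_mem _⟩
    · rw [h1 g]
      exact one_mem H
  have hcl := cl_of hΓ
  refine ⟨?_, ?_⟩
  · obtain ⟨I, hI1, hI2⟩ := Pool.Agent.TH164.Spin.gspinK_alg (κ := κ) hΓ.algebraic
    refine ⟨I, hI1, fun g => ?_⟩
    rw [← hI2 g]
    simp only [← vectors_eq]
    exact Iff.rfl
  rintro H hH ⟨B, hB, g₁, hg₁, hPB⟩
  have hB0 : B.det ≠ 0 := by
    have h4 := (Matrix.isUnit_iff_isUnit_det _).1 g₁.isUnit
    rw [hPB, det_mul, isUnit_iff_ne_zero] at h4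
    exact right_ne_zero_of_mul h4
  have hB1 : B * B⁻¹ = 1 := Matrix.mul_nonsing_inv _ (isUnit_iff_ne_zero.2 hB0)
  have hHal : Pool.Agent.TH119.MX.AlgGrp Pool.Agent.TH164.A1.QA (Pool.Agent.TH164.A1.carr H) := by
    refine Pool.Agent.TH164.A1.algGrp_carr ?_
    obtain ⟨I, h4, h6⟩ := hH
    exact ⟨I, fun p hp m => Pool.Agent.TH164.A1.mem_QA.2 (h4 p hp m), h6⟩
  have hW : ∀ C : Matrix N N ℂ, (∀ i j, IsAlgebraic ℚ (C i j)) → ∑ p : N × N,
      C p.1 p.2 * P.val p.1 p.2 = 0 → ∀ x ∈ Pool.Agent.TH164.Spin.Ek Γ κ,
        ∑ p : N × N, C p.1 p.2 * x p.1 p.2 = 0 := by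
    intro C hC h4 x hx
    rw [Fintype.sum_prod_type] at h4 ⊢
    exact hWustholz C hC h4 x hx
  have hdetP : ¬ IsAlgebraic ℚ P.val.det := by
    intro h4
    have h6 : IsAlgebraic ℚ ((2 * Real.pi * Complex.I : ℂ) ^ Fintype.card N) := by
      rw [← hLegendre]
      exact h4.pow 2
    exact two_pi_I_transcendental (h6.of_pow Fintype.card_pos)
  have hst := fun d => hcl.stab_allK (κ := κ) h3 h5 hHal hΓ.algebraic (inK_of hDeligne)
    hDeligne.1 hB1
    (Pool.Agent.TH164.A1.inv_mem_entries fun i j => Pool.Agent.TH164.A1.mem_QA.2 (hB i j))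
    (show P.val * B ∈ Pool.Agent.TH164.A1.carr H from ⟨g₁, hg₁, hPB⟩) hW hdetP d
  intro g hg
  have h5 := hcl.pres_allK (κ := κ) (fun d => (hst d).1) (fun d => (hst d).2) n le_rfl _ _
    (inK_of hg) hg.1 (fun i hi => absurd hi (by omega))
  obtain ⟨y, hy1, hy2⟩ := hHal.mem_of_pres h5 (val_inv g) (inv_val g)
  rw [← Units.ext hy2]
  exact hy1

end Pool.Agent.Results.MP_57341d_ag.RealMultiplication
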